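import Pool.Agent.N795.ST.Sums
import Pool.Agent.N73.STdom
import Pool.Agent.N935.STgain
import Pool.Agent.N999.STPure
import Pool.Agent.N340.STJoin
import Pool.Agent.N738.STclosed
import Pool.Agent.N130.STNearFar
import Pool.Agent.N279.STPoi
import Pool.Agent.N803.STCmp
import Pool.Agent.N803.STGeo
import Pool.Agent.N429.STNmt

set_option autoImplicit false

namespace Pool.Agent.N795.Shelf.LongRangeEveryTime

open Finset Equiv MeasureTheory Filter Topology

/-- The sum over all unordered pairs of the rates. -/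
noncomputable def totalRate {V : Type} [Fintype V] (J : V → V → ℝ) : ℝ := ∑ x, ∑ y, J x y / 2

/-- The probability that random stirring started at the identity, with an independent Poisson clock
of rate `J x y` for every unordered pair `{x, y}` (`J` symmetric), is at the permutation `g` at time
`t`: there are `n` rings up to time `t` with probability `exp (-R t) (R t)^n / n!`, `R` the total
rate, and each ring is a ring of the ordered pair `(x, y)` with probability `J x y / (2 R)`. -/
noncomputable def stirLaw {V : Type} [Fintype V] [DecidableEq V] (J : V → V → ℝ) (t : ℝ)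
    (g : Perm V) : ℝ :=
  ∑' n : ℕ, Real.exp (-(t * totalRate J)) * t ^ n / (n.factorial : ℝ) *
    ∑ w : Fin n → V × V, (∏ i, J (w i).1 (w i).2 / 2) *
      (if (List.ofFn fun i => swap (w i).1 (w i).2).prod = g then 1 else 0)

/-- The expectation of `F` under random stirring at time `t`. -/
noncomputable def stirExp {V : Type} [Fintype V] [DecidableEq V] (J : V → V → ℝ) (t : ℝ)
    (F : Perm V → ℝ) : ℝ := ∑ g, stirLaw J t g * F g

/-- Length of the cycle of `g` through `v`. -/
noncomputable def cycleLen {V : Type} [Fintype V] (g : Perm V) (v : V) : ℕ :=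
  Nat.card {w : V // g.SameCycle v w}

/-- The fraction of the points that lie in cycles with at least `K` points. -/
noncomputable def longMass {V : Type} [Fintype V] (K : ℝ) (g : Perm V) : ℝ :=
  (Nat.card {v : V // K ≤ (cycleLen g v : ℝ)} : ℝ) / Fintype.card V

/-- The `i`-th largest cycle length (`i = 0` for the largest) divided by the number of points, and
`0` if there are at most `i` cycles; the same formula as in the frozen statement. -/
noncomputable def cycleFrac {V : Type} [Fintype V] [DecidableEq V] (g : Perm V) (i : ℕ) : ℝ :=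
  sSup {x : ℝ | i + 1 ≤ Multiset.card
    (Multiset.filter (fun c : ℕ => x ≤ (c : ℝ) / Fintype.card V) g.partition.parts)}

/-- The mean of `f (ξ 0, ..., ξ (m - 1))` for the Poisson-Dirichlet(1) random sequence
`ξ 0 ≥ ξ 1 ≥ ...`, the ordered stick breaking sequence; the same formula as in the frozen
statement. -/
noncomputable def pdMean {m : ℕ} (f : (Fin m → ℝ) → ℝ) : ℝ :=
  ∫ U, f (fun i : Fin m => sSup {x : ℝ | (((i : ℕ) + 1 : ℕ) : ℕ∞) ≤
        Set.encard {j : ℕ | x ≤ (U j : ℝ) * ∏ l ∈ Finset.range j, (1 - (U l : ℝ))}})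
    ∂(Measure.infinitePi (fun _ : ℕ => (volume : Measure unitInterval)))

/-- The sup-norm on `ℤ ^ d`. -/
def supNorm {d : ℕ} (z : Fin d → ℤ) : ℕ := univ.sup fun i => (z i).natAbs

/-- The displacement `x - y` on the torus of side `L`, with coordinates in `(-L/2, L/2]`. -/
def disp {d L : ℕ} (x y : Fin d → ZMod L) : Fin d → ℤ := fun i => (x i - y i).valMinAbs

/-- The rates on the torus given by a function `J` of the displacement (if `J` is even this is
`J (x - y)`, except that for an even side the value is an average over the signs for displacements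
with a coordinate `L / 2`). -/
noncomputable def torusRate {d L : ℕ} (J : (Fin d → ℤ) → ℝ) (x y : Fin d → ZMod L) : ℝ :=
  open Classical in if x = y then 0 else (J (disp x y) + J (disp y x)) / 2

/-- The expectation of `F` for random stirring with the rates `J` on the torus of side `L + 1`. -/
noncomputable def torusExp (d : ℕ) (J : (Fin d → ℤ) → ℝ) (t : ℝ) (L : ℕ)
    (F : Perm (Fin d → ZMod (L + 1)) → ℝ) : ℝ :=
  stirExp (torusRate J : (Fin d → ZMod (L + 1)) → (Fin d → ZMod (L + 1)) → ℝ) t F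

section bridge

variable {V : Type} [Fintype V] [DecidableEq V]

theorem len_eq (g : Perm V) (v : V) : Pool.Agent.W805.LR.len g v = (cycleLen g v : ℝ) := by
  classical
  unfold Pool.Agent.W805.LR.len cycleLen
  rw [Pool.Agent.W805.LR.cnt_eq, Nat.card_eq_fintype_card, Fintype.card_subtype, Finset.sum_boole]

theorem mass_eq (K : ℝ) (g : Perm V) : longMass K g = Pool.Agent.TH268.PD.mas K g := by
  classical
  unfold longMass Pool.Agent.TH268.PD.mas
  simp only [len_eq]
  rw [Pool.Agent.TH268.PD.Bad.cnt_eq, Nat.card_eq_fintype_card, Fintype.card_subtype]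

theorem frac_eq (g : Perm V) (i : ℕ) :
    cycleFrac g i = Pool.Agent.TH268.PD.top (Pool.Agent.TH268.PD.frac g) i := by
  unfold cycleFrac Pool.Agent.TH268.PD.top
  congr 1
  ext x
  rw [Set.mem_ofPred_eq, Set.mem_ofPred_eq, Pool.Agent.TH268.PD.card_cyc g x]

theorem pd_eq {m : ℕ} (f : (Fin m → ℝ) → ℝ) : pdMean f = Pool.Agent.TH268.PD.pdm f := rfl

theorem stir_eq (J : V → V → ℝ) (t : ℝ) (F : Perm V → ℝ) :
    stirExp J t F = Pool.Agent.N795.ST.mn J t F := by
  have hlaw : ∀ g, stirLaw J t g = Real.exp (-(t * totalRate J)) *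
      Pool.Agent.W805.LR.stirMass J t g := fun g => Pool.Agent.W805.LR.series_eq J t g
  have hsum : ∑ g, Pool.Agent.W805.LR.stirMass J t g = Real.exp (t * totalRate J) :=
    Pool.Agent.W805.LR.sum_mass J t
  unfold stirExp Pool.Agent.N795.ST.mn Pool.Agent.TH268.PD.law
  rw [hsum]
  refine Finset.sum_congr rfl fun g _ => ?_
  rw [hlaw, Real.exp_neg, div_eq_inv_mul]

theorem tr_eq {d L : ℕ} (J : (Fin d → ℤ) → ℝ) :
    (torusRate J : (Fin d → ZMod L) → (Fin d → ZMod L) → ℝ) = Pool.Agent.N795.ST.tr J := rfl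

theorem torus_eq (d : ℕ) (J : (Fin d → ℤ) → ℝ) (t : ℝ) (L : ℕ)
    (F : Perm (Fin d → ZMod (L + 1)) → ℝ) :
    torusExp d J t L F = Pool.Agent.N795.ST.mn
      (Pool.Agent.N795.ST.tr J : (Fin d → ZMod (L + 1)) → (Fin d → ZMod (L + 1)) → ℝ) t F := by
  unfold torusExp
  rw [stir_eq, tr_eq]

end bridge

/-- Random stirring (the interchange process) with long range rates on the torus in dimension
`d ≥ 1`: `lam |z| ^ (-(d + σ)) ≤ J z ≤ Lam |z| ^ (-(d + σ))` for all displacements `z ≠ 0`,
`0 < σ < 1`; otherwise `J` is arbitrary.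

There is a function `m` of the time with values in `[0, 1]` such that for EVERY time `t > 0`:

* for every `K` the mean fraction of the points in cycles with at least `K` points converges as the
  side tends to infinity; the limit converges to `m t` as `K → ∞` (the density of the infinite
  cycles);
* there are no cycles of intermediate length: the fraction of the points in cycles with at least
  `K` points is close to `m t`, uniformly for `K₀ ≤ K ≤ δ₀ L ^ d`;
* the expected sums of the first `k` ordered cycle lengths divided by `L ^ d` converge, and their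
  limits converge to `m t` as `k → ∞` (so `m` is the function of hypothesis (H));
* the ordered cycle lengths divided by `L ^ d` converge in law to `m t` times a
  Poisson-Dirichlet(1) sequence, and divided by `m t L ^ d` to a Poisson-Dirichlet(1) sequence if
  `m t > 0`.

Moreover `m t = 0` if `t` times the sum of the rates is less than `1`, and `m t → 1` as `t → ∞`. -/
theorem result (d : ℕ) (σ lam Lam : ℝ) (J : (Fin d → ℤ) → ℝ) (hd : 1 ≤ d) (hσ : 0 < σ)
    (hσ1 : σ < 1) (hlam : 0 < lam)
    (hJ : ∀ z, z ≠ 0 → lam * (supNorm z : ℝ) ^ (-((d : ℝ) + σ)) ≤ J z ∧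
      J z ≤ Lam * (supNorm z : ℝ) ^ (-((d : ℝ) + σ))) :
    ∃ m : ℝ → ℝ,
      (∀ t : ℝ, 0 < t → 0 ≤ m t ∧ m t ≤ 1 ∧
        (∃ a : ℝ → ℝ,
          (∀ K : ℝ, 0 ≤ K → Tendsto (fun L => torusExp d J t L (longMass K)) atTop (𝓝 (a K))) ∧
          Tendsto a atTop (𝓝 (m t))) ∧
        (∀ ε : ℝ, 0 < ε → ∃ K₀ δ₀ : ℝ, 0 < δ₀ ∧ ∃ L₀ : ℕ, ∀ L : ℕ, L₀ ≤ L → ∀ K : ℝ, K₀ ≤ K →
          K ≤ δ₀ * ((L + 1 : ℕ) : ℝ) ^ d →
            torusExp d J t L (fun g => |longMass K g - m t|) ≤ ε) ∧
        (∃ S : ℕ → ℝ,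
          (∀ k : ℕ, Tendsto (fun L => ∑ i ∈ range k, torusExp d J t L (fun g => cycleFrac g i))
            atTop (𝓝 (S k))) ∧ Tendsto S atTop (𝓝 (m t))) ∧
        (∀ (k : ℕ) (f : (Fin k → ℝ) → ℝ), Continuous f → (∃ B, ∀ u, |f u| ≤ B) →
          Tendsto (fun L => torusExp d J t L (fun g => f (fun i => cycleFrac g i))) atTop
            (𝓝 (pdMean (fun u : Fin k → ℝ => f (fun i => m t * u i)))) ∧
          (0 < m t →
            Tendsto (fun L => torusExp d J t L (fun g => f (fun i => cycleFrac g i / m t))) atTop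
              (𝓝 (pdMean f))))) ∧
      (∀ S t : ℝ, (∀ s : Finset (Fin d → ℤ), 0 ∉ s → ∑ z ∈ s, J z ≤ S) → 0 < t → t * S < 1 →
        m t = 0) ∧
      Tendsto m atTop (𝓝 1) := by
  have hLam : 0 < Lam := by
    obtain ⟨e, he⟩ : ∃ e : Fin d → ℤ, e = fun _ => 1 := ⟨_, rfl⟩
    have he0 : e ≠ 0 := by
      intro h
      have h1 := congrFun h ⟨0, by omega⟩
      rw [he] at h1
      simp at h1
    have h2 := hJ e he0
    have h3 : (0 : ℝ) < (supNorm e : ℝ) := by
      have h4 : 1 ≤ Pool.Agent.N795.ST.nrm e := Pool.Agent.N795.ST.nrm_pos he0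
      have h5 : Pool.Agent.N795.ST.nrm e = supNorm e := rfl
      rw [h5] at h4
      exact_mod_cast h4
    have h4 : 0 < (supNorm e : ℝ) ^ (-((d : ℝ) + σ)) := Real.rpow_pos_of_pos h3 _
    have h5 : 0 < Lam * (supNorm e : ℝ) ^ (-((d : ℝ) + σ)) :=
      lt_of_lt_of_le (mul_pos hlam h4) (h2.1.trans h2.2)
    exact (pos_iff_pos_of_mul_pos h5).2 h4
  obtain ⟨m, hm, hsmall, hlarge⟩ := Pool.Agent.N795.ST.all_times Pool.Agent.N795.ST.dom
    Pool.Agent.N795.ST.cmp_up Pool.Agent.N795.ST.gain Pool.Agent.N795.ST.geo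
    (Pool.Agent.N795.ST.nmt Pool.Agent.N795.ST.pure
      (Pool.Agent.N795.ST.closed Pool.Agent.N795.ST.join) Pool.Agent.N795.ST.poi_sum)
    Pool.Agent.N795.ST.near_sum Pool.Agent.N795.ST.far_sum hd hlam hLam hσ hσ1 (J := J) hJ
  refine ⟨m, fun t ht => ?_, hsmall, hlarge⟩
  obtain ⟨h1, h2, ⟨a, h3, h4⟩, h5, h6⟩ := hm t ht
  simp only [torus_eq, frac_eq, pd_eq]
  refine ⟨h1, h2, ⟨a, fun K hK => ?_, h4⟩, fun ε hε => ?_, ?_, fun k f hf hb => ⟨?_, fun hm0 => ?_⟩⟩
  · refine (h3 K hK).congr fun L => ?_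
    unfold Pool.Agent.N795.ST.aa
    congr 1
    funext g
    rw [mass_eq]
  · obtain ⟨K₀, δ₀, -, h7, L₀, h8⟩ := h5 ε hε
    refine ⟨K₀, δ₀, h7, L₀, fun L hL K hK1 hK2 => ?_⟩
    simp only [mass_eq]
    exact h8 (L + 1) (by omega) K hK1 hK2
  · exact Pool.Agent.N795.ST.sums_lim (V := fun L => Fin d → ZMod (L + 1))
      (fun L => Pool.Agent.N795.ST.tr J) t (m t) h1 h2 h6
  · exact h6 k f hf hb
  · exact Pool.Agent.N795.ST.scaled_lim (V := fun L => Fin d → ZMod (L + 1))
      (fun L => Pool.Agent.N795.ST.tr J) t (m t) hm0 h6 k f hf hb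

end Pool.Agent.N795.Shelf.LongRangeEveryTime
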